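import Pool.Agent.H887_Cub.Final

/-!
# The cubic surface of `MP_3a7aac_nt` has no rational point

The surface `F = 0` has points everywhere locally. Its 27 lines form three orbits of nine lines; the
Galois group of the lines is contained in `S₃ × S₃ × S₃`, belonging to the cubic fields of
discriminant `-23`, `-31`, `-59`. The class of order three in the Brauer group obstructs rational
points. The proof below makes this explicit with the cubic field of discriminant `-23`: there are
integral quadratic forms `Q₀, Q₁, Q₂` and cubic forms `X, Y` with
`N(Q₀, Q₁, Q₂) = -(2X² - XY + 3Y²) + F·G`, where `N` is the norm form of that field, and the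
Hilbert class field of `ℚ(√-23)` (class number three) shows that the right side at a primitive zero
of `F` cannot be such a norm.
-/

namespace Pool.Agent.Results.MP_3a7aac_nt.NoRationalPoint

/-- The only integer solution of the equation of the problem is the trivial one. -/
theorem result : ∀ x y z t : ℤ,
    x ^ 3 + 2 * x ^ 2 * y + y ^ 3 + y ^ 2 * z + x * z ^ 2 + z ^ 3 + t ^ 2 * x - t ^ 2 * y
      - t ^ 2 * z + t * y * z + t ^ 3 = 0 →
    x = 0 ∧ y = 0 ∧ z = 0 ∧ t = 0 := by
  intro x y z t h
  exact Pool.Agent.H887Cub.no_solution _ x y z t le_rfl h

end Pool.Agent.Results.MP_3a7aac_nt.NoRationalPoint
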